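import Pool.Agent.Run7.h534.Cv.Mom
import Pool.Agent.Run7.h534.Cv.Cmp

set_option autoImplicit false

/-!
# The boxes dual to the caps of the paraboloid and tubes in the standard Euclidean space
-/

open MeasureTheory Set Filter Topology ENNReal NNReal Metric

namespace Run7.h534.Kak

open Pool.Agent.H742R2.Kk (E)
open Pool.Agent.H810R3.Tub
open Run7.h534.Cv (iso dir_lower)

variable {d : ℕ}

/-- The cylinder of length `1` and radius `r` around the axis with centre `b` and direction `e`. -/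
def etube {n : ℕ} (r : ℝ) (b e : E n) : Set (E n) :=
  {y | |inner ℝ (y - b) e| ≤ 1 / 2 ∧ ‖(y - b) - (inner ℝ (y - b) e : ℝ) • e‖ ≤ r}

theorem etube_closed {n : ℕ} (r : ℝ) (b e : E n) : IsClosed (etube r b e) := by
  have h1 : Continuous fun y : E n => (inner ℝ (y - b) e : ℝ) := by fun_prop
  refine IsClosed.and (isClosed_le h1.abs continuous_const) (isClosed_le ?_ continuous_const)
  fun_prop

/-- The sum of the indicators of the tubes. -/
noncomputable def Et {ι : Type} [Fintype ι] {n : ℕ} (r : ℝ) (b e : ι → E n) (z : E n) : ℝ≥0∞ :=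
  ∑ i, (etube r (b i) (e i)).indicator (fun _ => (1 : ℝ≥0∞)) z

theorem Et_measurable {ι : Type} [Fintype ι] {n : ℕ} (r : ℝ) (b e : ι → E n) :
    Measurable (Et r b e) := by
  apply Finset.measurable_fun_sum
  intro i _
  exact measurable_const.indicator (etube_closed _ _ _).measurableSet

/-- **The boxes are contained in tubes after a scaling.** -/
theorem box_etube {N c r : ℝ} (hN : 1 ≤ N) (hc0 : 0 < c) (hc1 : c * N ^ 2 ≤ 1)
    (hc2 : c * (d * N / 2) ≤ r) {ω : Vec d} {f : Fin d → Space d}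
    (hf : Orthonormal ℝ (Fin.cons (nor ω) f : Fin (d + 1) → Space d)) {a : Space d} {z : E (d + 1)}
    (hz : (iso d).symm (c⁻¹ • z) ∈ box N (nor ω) f a) :
    z ∈ etube r (c • iso d a) (iso d (nor ω)) := by
  have hN0 : 0 < N := by linarith
  set φ := iso d with hφ
  have hin : ∀ u v : Space d, inner ℝ (φ u) (φ v) = inner ℝ u v := φ.inner_map_map
  set x : Space d := φ.symm (c⁻¹ • z) with hx
  set e : Space d := nor ω with he
  have e1 : z = c • φ x := by
    rw [hx, φ.apply_symm_apply, smul_smul, mul_inv_cancel₀ hc0.ne', one_smul]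
  have e1' : z - c • φ a = c • φ (x - a) := by rw [e1, map_sub, smul_sub]
  have e2 : inner ℝ (z - c • φ a) (φ e) = c * inner ℝ (x - a) e := by
    rw [e1', inner_smul_left, hin]
    simp
  have h1 : |inner ℝ e (x - a)| ≤ N ^ 2 / 2 := hz.1
  have h2 : ‖(x - a) - (inner ℝ e (x - a) : ℝ) • e‖ ≤ d * N / 2 := box_perp hN hf hz
  rw [real_inner_comm] at h1 h2
  refine ⟨?_, ?_⟩
  · rw [e2, abs_mul, abs_of_pos hc0]
    calc c * |inner ℝ (x - a) e| ≤ c * (N ^ 2 / 2) := by gcongr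
      _ = (c * N ^ 2) / 2 := by ring
      _ ≤ 1 / 2 := by linarith
  · have e3 : z - c • φ a - (inner ℝ (z - c • φ a) (φ e) : ℝ) • φ e
        = c • φ ((x - a) - (inner ℝ (x - a) e : ℝ) • e) := by
      rw [e2, e1', map_sub φ (x - a), map_smul, smul_sub c (φ (x - a)), mul_smul]
    rw [e3, norm_smul, φ.norm_map, Real.norm_of_nonneg hc0.le]
    calc c * ‖(x - a) - (inner ℝ (x - a) e : ℝ) • e‖ ≤ c * (d * N / 2) := by gcongr
      _ ≤ r := hc2

/-- **From tubes to boxes.** -/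
theorem boxes_le_tubes {q N c r : ℝ} (hq : 0 < q) (hN : 1 ≤ N) (hc0 : 0 < c)
    (hc1 : c * N ^ 2 ≤ 1) (hc2 : c * (d * N / 2) ≤ r) {ι : Type} [Fintype ι] (ω : ι → Vec d)
    (f : ι → Fin d → Space d) (a : ι → Space d)
    (hf : ∀ i, Orthonormal ℝ (Fin.cons (nor (ω i)) (f i) : Fin (d + 1) → Space d)) :
    ∫⁻ y, Fb N ω f a y ^ q ≤ ENNReal.ofReal (c⁻¹ ^ (d + 1)) *
      ∫⁻ z, Et r (fun i => c • iso d (a i)) (fun i => iso d (nor (ω i))) z ^ q := by
  set φ := iso d with hφ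
  have hci : 0 < c⁻¹ := by positivity
  have e1 : ∫⁻ y, Fb N ω f a y ^ q = ∫⁻ z : E (d + 1), Fb N ω f a (φ.symm z) ^ q :=
    (φ.symm.measurePreserving.lintegral_comp
      (f := fun y => Fb N ω f a y ^ q) ((Fb_measurable N ω f a).pow_const q)).symm
  have e2 := lint_smul (volume : Measure (E (d + 1))) (r := c⁻¹) hci.ne'
    (fun z => Fb N ω f a (φ.symm z) ^ q)
  rw [finrank_euclideanSpace_fin, abs_of_pos (by positivity)] at e2
  have e4 : ∫⁻ z : E (d + 1), Fb N ω f a (φ.symm z) ^ q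
      = ENNReal.ofReal (c⁻¹ ^ (d + 1)) *
        ∫⁻ z : E (d + 1), Fb N ω f a (φ.symm (c⁻¹ • z)) ^ q := by
    rw [e2, ← mul_assoc, ← ENNReal.ofReal_mul (by positivity), mul_inv_cancel₀ (by positivity),
      ENNReal.ofReal_one, one_mul]
  rw [e1, e4]
  gcongr with z
  unfold Fb Et
  refine Finset.sum_le_sum fun i _ => ?_
  by_cases hm : φ.symm (c⁻¹ • z) ∈ box N (nor (ω i)) (f i) (a i)
  · rw [indicator_of_mem hm, indicator_of_mem (box_etube hN hc0 hc1 hc2 (hf i) hm)]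
  · rw [indicator_of_notMem hm]
    exact zero_le

/-- The unit normals of separated caps are separated. -/
theorem nor_sep {σ N : ℝ} {ω ω' : Vec d} (h1 : ‖ω‖ ≤ 1) (h2 : ‖ω'‖ ≤ 1)
    (h : σ / N ≤ ‖ω - ω'‖) : σ / (4 * N) ≤ ‖iso d (nor ω) - iso d (nor ω')‖ := by
  rw [← map_sub, (iso d).norm_map]
  have h3 := dir_lower (v := -(2:ℝ) • ω) (w := -(2:ℝ) • ω') (by
    rw [norm_smul, norm_neg, Real.norm_of_nonneg zero_le_two]; linarith) (by
    rw [norm_smul, norm_neg, Real.norm_of_nonneg zero_le_two]; linarith)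
  rw [← smul_sub, norm_smul, norm_neg, Real.norm_of_nonneg zero_le_two] at h3
  show σ / (4 * N) ≤ ‖dir (-(2:ℝ) • ω) - dir (-(2:ℝ) • ω')‖
  have h4 : σ / (4 * N) = σ / N / 4 := by ring
  rw [h4]
  linarith

end Run7.h534.Kak
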