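import Pool.Agent.Run7.h534.Kak.Tame
import Pool.Agent.Run7.h534.Cv.Mom
import Pool.Agent.Run7.h534.Cv.Cmp

set_option autoImplicit false

/-!
# From an inequality for tubes to the moments of the boxes dual to the caps of the paraboloid
-/

open MeasureTheory Set Filter Topology ENNReal NNReal Metric

namespace Run7.h534.Kak

open Pool.Agent.H810R3.Tub

variable {d : ℕ}

/-- The position, at height `0`, of the translate with centre `a` of the line with the direction of
the normal at `ω`. -/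
noncomputable def pos (ω : Vec d) (a : Space d) : Vec d := a.fst + (2 * a.snd) • ω

/-- The sum of the indicators of the tubes. -/
noncomputable def Ft {ι : Type} [Fintype ι] (δ : ℝ) (v β : ι → Vec d) (h : ι → ℝ)
    (y : Space d) : ℝ≥0∞ :=
  ∑ i, (tube δ (dir (v i)) (WithLp.toLp 2 (β i + h i • v i, h i))).indicator (fun _ => (1 : ℝ≥0∞)) y

theorem Ft_measurable {ι : Type} [Fintype ι] (δ : ℝ) (v β : ι → Vec d) (h : ι → ℝ) :
    Measurable (Ft δ v β h) := by
  apply Finset.measurable_fun_sum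
  intro i _
  exact measurable_const.indicator (tube_closed _ _ _).measurableSet

theorem enorm_tsum {ι : Type} [Fintype ι] (δ : ℝ) (v β : ι → Vec d) (h : ι → ℝ) (y : Space d) :
    ‖tsum δ v β h (fun _ => 1) y‖ₑ = Ft δ v β h y := by
  have h0 : ∀ i, 0 ≤ (tube δ (dir (v i)) (WithLp.toLp 2 (β i + h i • v i, h i))).indicator
      (fun _ => (1 : ℝ)) y := by
    intro i
    exact indicator_nonneg (fun _ _ => zero_le_one) _
  unfold tsum Ft
  rw [Real.enorm_eq_ofReal (Finset.sum_nonneg fun i _ => h0 i),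
    ENNReal.ofReal_sum_of_nonneg (fun i _ => h0 i)]
  refine Finset.sum_congr rfl fun i _ => ?_
  by_cases hm : y ∈ tube δ (dir (v i)) (WithLp.toLp 2 (β i + h i • v i, h i))
  · rw [indicator_of_mem hm, indicator_of_mem hm, ENNReal.ofReal_one]
  · rw [indicator_of_notMem hm, indicator_of_notMem hm, ENNReal.ofReal_zero]

/-- The scaling factor. -/
noncomputable def cc (d : ℕ) (σ N : ℝ) : ℝ := σ / (4 * (1 + d) * N ^ 2)

theorem cc_pos (d : ℕ) {σ N : ℝ} (hσ : 0 < σ) (hN : 1 ≤ N) : 0 < cc d σ N := by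
  unfold cc
  have : 0 < N := by linarith
  positivity

/-- **From tubes to boxes.** -/
theorem push_tubes (hd : 1 ≤ d) {q σ A N : ℝ} (hq : ((d : ℝ) + 1) / d < q) (hσ : 0 < σ)
    (hσ1 : σ ≤ 1) (hA : 0 ≤ A) (hN : 1 ≤ N) {ι : Type} [Fintype ι] (ω : ι → Vec d)
    (f : ι → Fin d → Space d) (a : ι → Space d)
    (hf : ∀ i, Orthonormal ℝ (Fin.cons (nor (ω i)) (f i) : Fin (d + 1) → Space d))
    (hT : eLpNorm (tsum (σ / (8 * N)) ω (fun i => -(cc d σ N / 2) • pos (ω i) (a i))
        (fun i => cc d σ N * (a i).snd) (fun _ => 1)) (ENNReal.ofReal q) volume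
      ≤ ENNReal.ofReal (A * (σ / (8 * N)) ^ (d / q) *
          (Fintype.card ι : ℝ) ^ (1 - 1 / (q * d)))) :
    ∫⁻ y, Fb N ω f a y ^ q
      ≤ ENNReal.ofReal (4 * (1 + d) ^ (d + 1) / σ * A ^ q * N ^ (d + 2) *
          (Fintype.card ι : ℝ) ^ (q - 1 / d)) := by
  have hd0 : (0 : ℝ) < d := by exact_mod_cast hd
  have hq0 : 0 < q := lt_trans (by positivity) hq
  have hN0 : 0 < N := by linarith
  set c : ℝ := cc d σ N with hc
  have hc0 : 0 < c := cc_pos d hσ hN
  set δ : ℝ := σ / (8 * N) with hδ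
  have hδ0 : 0 < δ := by positivity
  have hcN : c * N ^ 2 = σ / (4 * (1 + d)) := by
    rw [hc, cc]; field_simp
  have hc1 : c * (N ^ 2 / 2 + d * N / 2) ≤ 1 / 2 := by
    have h1 : N ^ 2 / 2 + d * N / 2 ≤ (1 + d) * N ^ 2 / 2 := by
      nlinarith [mul_nonneg hd0.le (sub_nonneg.2 hN)]
    calc c * (N ^ 2 / 2 + d * N / 2) ≤ c * ((1 + d) * N ^ 2 / 2) := mul_le_mul_of_nonneg_left h1 hc0.le
      _ = (c * N ^ 2) * (1 + d) / 2 := by ring
      _ = σ / 8 := by rw [hcN]; field_simp; ring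
      _ ≤ 1 / 2 := by linarith
  have hc2 : c * (d * N / 2) ≤ δ := by
    have h1 : c * (d * N / 2) = (σ / (8 * N)) * (d / (1 + d)) := by
      rw [hc, cc]; field_simp; ring
    rw [h1, hδ]
    have h2 : (d : ℝ) / (1 + d) ≤ 1 := by
      rw [div_le_one (by positivity)]; linarith
    calc σ / (8 * N) * (d / (1 + d)) ≤ σ / (8 * N) * 1 := mul_le_mul_of_nonneg_left h2 (by positivity)
      _ = _ := mul_one _
  set β' : ι → Vec d := fun i => -(c / 2) • pos (ω i) (a i) with hβ'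
  set h' : ι → ℝ := fun i => c * (a i).snd with hh'
  set G : Space d → ℝ≥0∞ := Ft δ ω β' h' with hG
  have hpt : ∀ y : Space d, Fb N ω f a y ≤ G (scl c y) := by
    intro y
    rw [hG]
    unfold Fb Ft
    refine Finset.sum_le_sum fun i _ => ?_
    by_cases hm : y ∈ box N (nor (ω i)) (f i) (a i)
    · have h1 := scl_box hN hc0 hc1 hc2 (hf i) hm
      have e2 : scl c (a i) = WithLp.toLp 2 (β' i + h' i • ω i, h' i) := by
        show (WithLp.toLp 2 (-(c / 2) • (a i).fst, c * (a i).snd) : Space d) = _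
        congr 1
        refine Prod.ext ?_ rfl
        show -(c / 2) • (a i).fst = -(c / 2) • ((a i).fst + (2 * (a i).snd) • ω i)
          + (c * (a i).snd) • ω i
        rw [smul_add, smul_smul, add_assoc, ← add_smul]
        have : -(c / 2) * (2 * (a i).snd) + c * (a i).snd = 0 := by ring
        rw [this, zero_smul, add_zero]
      rw [e2] at h1
      rw [indicator_of_mem hm, indicator_of_mem h1]
    · rw [indicator_of_notMem hm]
      exact zero_le
  have hmp := WithLp.volume_preserving_toLp (Vec d) ℝ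
  have hsplit : ∀ g : Space d → ℝ≥0∞, Measurable g →
      ∫⁻ y : Space d, g y = ∫⁻ t : ℝ, ∫⁻ x : Vec d, g (WithLp.toLp 2 (x, t)) := by
    intro g hg
    rw [← hmp.lintegral_comp hg]
    have hg2 : Measurable (fun p : Vec d × ℝ => g (WithLp.toLp 2 p)) := hg.comp hmp.measurable
    rw [Measure.volume_eq_prod, lintegral_prod_symm _ hg2.aemeasurable]
  have hGm : Measurable (fun y => G y ^ q) := (Ft_measurable _ _ _ _).pow_const _
  have hFm : Measurable (fun y : Space d => Fb N ω f a y ^ q) := (Fb_measurable N ω f a).pow_const _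
  have hc2' : -(c / 2) ≠ 0 := by
    have : 0 < c / 2 := by positivity
    linarith
  have hGi : ∫⁻ y, G y ^ q ≤ ENNReal.ofReal (A ^ q * δ ^ d * (Fintype.card ι : ℝ) ^ (q - 1 / d)) := by
    have hqe : ENNReal.ofReal q ≠ 0 := by simpa using hq0
    rw [eLpNorm_eq_lintegral_rpow_enorm_toReal hqe ENNReal.ofReal_ne_top,
      ENNReal.toReal_ofReal hq0.le] at hT
    simp_rw [enorm_tsum] at hT
    have h1 := ENNReal.rpow_le_rpow hT hq0.le
    rw [← ENNReal.rpow_mul, one_div_mul_cancel hq0.ne', ENNReal.rpow_one] at h1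
    refine h1.trans (le_of_eq ?_)
    rw [ENNReal.ofReal_rpow_of_nonneg (by positivity) hq0.le]
    congr 1
    rw [Real.mul_rpow (by positivity) (by positivity), Real.mul_rpow hA (by positivity),
      ← Real.rpow_mul hδ0.le, ← Real.rpow_mul (Nat.cast_nonneg _), div_mul_cancel₀ _ hq0.ne',
      Real.rpow_natCast]
    congr 2
    field_simp
  calc ∫⁻ y, Fb N ω f a y ^ q
      = ∫⁻ t : ℝ, ∫⁻ x : Vec d, Fb N ω f a (WithLp.toLp 2 (x, t)) ^ q := hsplit _ hFm
    _ ≤ ∫⁻ t : ℝ, ∫⁻ x : Vec d, G (WithLp.toLp 2 (-(c / 2) • x, c * t)) ^ q :=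
        lintegral_mono fun t => lintegral_mono fun x => ENNReal.rpow_le_rpow (hpt _) hq0.le
    _ = ∫⁻ t : ℝ, ENNReal.ofReal |((-(c / 2)) ^ d)⁻¹| *
          ∫⁻ x : Vec d, G (WithLp.toLp 2 (x, c • t)) ^ q := by
        refine lintegral_congr fun t => ?_
        rw [lint_smul volume hc2' (fun x => G (WithLp.toLp 2 (x, c * t)) ^ q),
          finrank_euclideanSpace_fin, smul_eq_mul]
    _ = ENNReal.ofReal |((-(c / 2)) ^ d)⁻¹| * (ENNReal.ofReal |(c ^ 1)⁻¹| *
          ∫⁻ t : ℝ, ∫⁻ x : Vec d, G (WithLp.toLp 2 (x, t)) ^ q) := by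
        rw [lintegral_const_mul' _ _ ENNReal.ofReal_ne_top, lint_smul volume hc0.ne'
          (fun t : ℝ => ∫⁻ x : Vec d, G (WithLp.toLp 2 (x, t)) ^ q),
          Module.finrank_self]
    _ = ENNReal.ofReal |((-(c / 2)) ^ d)⁻¹| * (ENNReal.ofReal |(c ^ 1)⁻¹| * ∫⁻ y, G y ^ q) := by
        rw [hsplit _ hGm]
    _ ≤ ENNReal.ofReal |((-(c / 2)) ^ d)⁻¹| * (ENNReal.ofReal |(c ^ 1)⁻¹| *
          ENNReal.ofReal (A ^ q * δ ^ d * (Fintype.card ι : ℝ) ^ (q - 1 / d))) := by
        gcongr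
    _ = _ := by
        rw [← ENNReal.ofReal_mul (abs_nonneg _), ← ENNReal.ofReal_mul (abs_nonneg _)]
        congr 1
        have e1 : |((-(c / 2)) ^ d)⁻¹| = (8 * (1 + d) / σ) ^ d * N ^ (2 * d) := by
          rw [abs_inv, abs_pow, abs_neg, abs_of_pos (by positivity : 0 < c / 2), hc, cc, ← inv_pow]
          have : (σ / (4 * (1 + d) * N ^ 2) / 2)⁻¹ = 8 * (1 + d) / σ * N ^ 2 := by
            field_simp; ring
          rw [this, mul_pow, ← pow_mul]
        have e2 : |(c ^ 1)⁻¹| = (4 * (1 + d) / σ) * N ^ 2 := by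
          rw [pow_one, abs_inv, abs_of_pos hc0, hc, cc]
          field_simp
        have e3 : (8 * (1 + d) / σ : ℝ) ^ d * δ ^ d * N ^ d = (1 + d) ^ d := by
          rw [← mul_pow, ← mul_pow, hδ]
          congr 1
          field_simp
        rw [e1, e2]
        have e4 : N ^ (2 * d) * N ^ 2 = N ^ d * N ^ (d + 2) := by
          rw [← pow_add, ← pow_add]
          congr 1
          ring
        calc (8 * (1 + ↑d) / σ) ^ d * N ^ (2 * d) * (4 * (1 + ↑d) / σ * N ^ 2 *
              (A ^ q * δ ^ d * (Fintype.card ι : ℝ) ^ (q - 1 / ↑d)))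
            = (8 * (1 + ↑d) / σ) ^ d * δ ^ d * (4 * (1 + ↑d) / σ) * A ^ q *
              (N ^ (2 * d) * N ^ 2) * (Fintype.card ι : ℝ) ^ (q - 1 / ↑d) := by ring
          _ = ((8 * (1 + ↑d) / σ) ^ d * δ ^ d * N ^ d) * (4 * (1 + ↑d) / σ) * A ^ q *
              N ^ (d + 2) * (Fintype.card ι : ℝ) ^ (q - 1 / ↑d) := by rw [e4]; ring
          _ = _ := by rw [e3]; ring

end Run7.h534.Kak
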