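import Pool.Agent.Run7.h534.Kak.Euc
import Pool.Agent.Run7.h750.RS4

set_option autoImplicit false

/-!
# Boxes translated at random along a subspace of codimension two
-/

open MeasureTheory Set Filter Topology ENNReal NNReal Metric ProbabilityTheory

namespace Run7.h534.Kak

open Pool.Agent.H742R2.Kk (E)
open Pool.Agent.H810R3.Tub
open Run7.h534.Cv (iso dir_lower)

/-- The hypotheses. -/
structure Sh (m : ℕ) {Ω ι : Type} [MeasurableSpace Ω] [Fintype ι] (P : Measure Ω) (σ A N : ℝ)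
    (ω : ι → Vec (m + 2)) (f : ι → Fin (m + 2) → Space (m + 2)) (X : ι → Ω → E (m + 1)) : Prop where
  hA : 1 ≤ A
  hN : 1 ≤ N
  hω : ∀ i, ‖ω i‖ ≤ 1
  hsep : ∀ i j, i ≠ j → σ / N ≤ ‖ω i - ω j‖
  hf : ∀ i, Orthonormal ℝ (Fin.cons (nor (ω i)) (f i) : Fin (m + 2 + 1) → Space (m + 2))
  hX : ∀ i, Measurable (X i)
  hspr : ∀ i (B : Set (E (m + 1))), MeasurableSet B → P (X i ⁻¹' B) ≤ ENNReal.ofReal A * volume B
  hind : ∀ i j, i ≠ j → IndepFun (X i) (X j) P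

/-- The mean of the `q`-th moment. -/
noncomputable def mean {m : ℕ} {Ω ι : Type} [MeasurableSpace Ω] [Fintype ι] (P : Measure Ω)
    (q N : ℝ) (J : E (m + 1) →ₗᵢ[ℝ] Space (m + 2)) (ω : ι → Vec (m + 2))
    (f : ι → Fin (m + 2) → Space (m + 2)) (a : ι → Space (m + 2)) (X : ι → Ω → E (m + 1)) : ℝ≥0∞ :=
  ∫⁻ w, (∫⁻ y, Fb N ω f (fun i => a i + N ^ 2 • J (X i w)) y ^ q) ∂P

theorem to_data (m : ℕ) {σ : ℝ} (hσ : 0 < σ) (hσ1 : σ ≤ 1) (J : E (m + 1) →ₗᵢ[ℝ] Space (m + 2))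
    {Ω ι : Type} [MeasurableSpace Ω] [Fintype ι] (P : Measure Ω)
    (A N : ℝ) (ω : ι → Vec (m + 2)) (f : ι → Fin (m + 2) → Space (m + 2))
    (a : ι → Space (m + 2)) (X : ι → Ω → E (m + 1)) (h : Sh m P σ A N ω f X) :
    Run7.h750.RS.Data m ((iso (m + 2)).toLinearIsometry.comp J) Ω P ι
      (A * (σ / (2 * (m + 2)))⁻¹ ^ (m + 1)) (σ / (4 * N))
      (fun i => (σ / (2 * (m + 2)) / N ^ 2) • iso (m + 2) (a i)) (fun i => iso (m + 2) (nor (ω i)))
      (fun i w => (σ / (2 * (m + 2))) • X i w) := by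
  have hN0 : 0 < N := by linarith [h.hN]
  set τ : ℝ := σ / (2 * (m + 2)) with hτ
  have hτ0 : 0 < τ := by positivity
  have hτ1 : τ ≤ 1 := by
    rw [hτ, div_le_one (by positivity)]
    have : (0:ℝ) ≤ m := Nat.cast_nonneg m
    linarith
  refine ⟨?_, by positivity, ?_, ?_, ?_, ?_, ?_, ?_⟩
  · have h1 : 1 ≤ τ⁻¹ := (one_le_inv₀ hτ0).2 hτ1
    exact one_le_mul_of_one_le_of_one_le h.hA (one_le_pow₀ h1)
  · rw [div_lt_one (by positivity)]
    linarith [h.hN]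
  · intro i
    rw [(iso (m + 2)).norm_map]
    exact norm_dir _
  · intro i j hij
    exact nor_sep (h.hω i) (h.hω j) (h.hsep i j hij)
  · intro i
    exact (h.hX i).const_smul τ
  · intro i B hB
    have e1 : (fun w => τ • X i w) ⁻¹' B = X i ⁻¹' ((fun x => τ • x) ⁻¹' B) := rfl
    rw [e1]
    refine (h.hspr i _ (measurable_const_smul τ hB)).trans (le_of_eq ?_)
    rw [Measure.addHaar_preimage_smul volume hτ0.ne' B, finrank_euclideanSpace_fin,
      abs_of_pos (by positivity), ← mul_assoc, ← ENNReal.ofReal_mul (by linarith [h.hA]), inv_pow]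
  · intro i j hij
    exact (h.hind i j hij).comp (measurable_const_smul τ) (measurable_const_smul τ)

theorem mean_le (m : ℕ) {q σ : ℝ} (hq : 0 < q) (hσ : 0 < σ) (hσ1 : σ ≤ 1)
    (J : E (m + 1) →ₗᵢ[ℝ] Space (m + 2))
    {Ω ι : Type} [MeasurableSpace Ω] [Fintype ι] (P : Measure Ω) [IsProbabilityMeasure P]
    (A N : ℝ) (ω : ι → Vec (m + 2)) (f : ι → Fin (m + 2) → Space (m + 2))
    (a : ι → Space (m + 2)) (X : ι → Ω → E (m + 1)) (h : Sh m P σ A N ω f X) :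
    mean P q N J ω f a X ≤ ENNReal.ofReal ((σ / (2 * (m + 2)) / N ^ 2)⁻¹ ^ (m + 3)) *
      ∫⁻ z, Run7.h750.RS.Sm ((iso (m + 2)).toLinearIsometry.comp J) (σ / (4 * N))
        (fun i => (σ / (2 * (m + 2)) / N ^ 2) • iso (m + 2) (a i)) (fun i => iso (m + 2) (nor (ω i)))
        (fun i w => (σ / (2 * (m + 2))) • X i w) z ^ q ∂(P.prod volume) := by
  have hN := h.hN
  have hN0 : 0 < N := by linarith
  have hd := to_data m hσ hσ1 J P A N ω f a X h
  set τ : ℝ := σ / (2 * (m + 2)) with hτ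
  have hτ0 : 0 < τ := by positivity
  have hτ1 : τ ≤ 1 := by
    rw [hτ, div_le_one (by positivity)]
    have : (0:ℝ) ≤ m := Nat.cast_nonneg m
    linarith
  set c : ℝ := τ / N ^ 2 with hc
  have hc0 : 0 < c := by positivity
  have hcN : c * N ^ 2 = τ := by rw [hc]; field_simp
  have hc2 : c * (((m + 2 : ℕ) : ℝ) * N / 2) ≤ σ / (4 * N) := by
    rw [hc, hτ]
    push_cast
    apply le_of_eq
    field_simp
    ring
  rw [lintegral_prod _ ((Run7.h750.RS.Sm_meas _ _ _ _ _ hd.hX).pow_const q).aemeasurable,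
    ← lintegral_const_mul' _ _ ENNReal.ofReal_ne_top]
  unfold mean
  apply lintegral_mono
  intro w
  have h1 := boxes_le_tubes (d := m + 2) hq hN hc0 (by rw [hcN]; exact hτ1) hc2 ω f
    (fun i => a i + N ^ 2 • J (X i w)) h.hf
  refine h1.trans (le_of_eq ?_)
  congr 1
  apply lintegral_congr
  intro x
  congr 1
  unfold Et Run7.h750.RS.Sm
  apply Finset.sum_congr rfl
  intro i _
  unfold Run7.h750.RS.ind
  have e1 : c • iso (m + 2) (a i + N ^ 2 • J (X i w)) = c • iso (m + 2) (a i) +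
      ((iso (m + 2)).toLinearIsometry.comp J) (τ • X i w) := by
    rw [map_add, map_smul, smul_add, smul_smul, hcN, map_smul]
    rfl
  have h2 : x ∈ etube (σ / (4 * N)) (c • iso (m + 2) (a i + N ^ 2 • J (X i w)))
      (iso (m + 2) (nor (ω i))) ↔
      x - ((iso (m + 2)).toLinearIsometry.comp J) (τ • X i w) ∈
        Run7.h750.RS.tube (σ / (4 * N)) (c • iso (m + 2) (a i)) (iso (m + 2) (nor (ω i))) := by
    rw [e1]
    have : x - ((iso (m + 2)).toLinearIsometry.comp J) (τ • X i w) - c • iso (m + 2) (a i) =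
        x - (c • iso (m + 2) (a i) + ((iso (m + 2)).toLinearIsometry.comp J) (τ • X i w)) := by abel
    unfold etube Run7.h750.RS.tube
    simp only [mem_ofPred_eq, this]
  by_cases hx : x ∈ etube (σ / (4 * N)) (c • iso (m + 2) (a i + N ^ 2 • J (X i w)))
      (iso (m + 2) (nor (ω i)))
  · rw [indicator_of_mem hx, indicator_of_mem (h2.1 hx)]; rfl
  · rw [indicator_of_notMem hx, indicator_of_notMem (fun h' => hx (h2.2 h'))]

/-- The power of `N`. -/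
theorem scale_eq (m : ℕ) {σ N : ℝ} (hσ : 0 < σ) (hN : 1 ≤ N) :
    (σ / (2 * (m + 2)) / N ^ 2)⁻¹ ^ (m + 3) * (σ / (4 * N)) ^ (m + 2) =
      ((σ / (2 * (m + 2)))⁻¹ ^ (m + 3) * (σ / 4) ^ (m + 2)) * N ^ (m + 2 + 2) := by
  have hN0 : 0 < N := by linarith
  have hτ0 : 0 < σ / (2 * ((m : ℝ) + 2)) := by positivity
  have e1 : (σ / (2 * (m + 2)) / N ^ 2)⁻¹ = (σ / (2 * (m + 2)))⁻¹ * N ^ 2 := by
    field_simp
  have e2 : σ / (4 * N) = σ / 4 * N⁻¹ := by field_simp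
  rw [e1, e2, mul_pow, mul_pow, ← pow_mul]
  have e3 : N ^ (2 * (m + 3)) * N⁻¹ ^ (m + 2) = N ^ (m + 2 + 2) := by
    have : 2 * (m + 3) = (m + 2 + 2) + (m + 2) := by ring
    rw [this, pow_add N, mul_assoc, ← mul_pow, mul_inv_cancel₀ hN0.ne', one_pow, mul_one]
  calc (σ / (2 * ((m : ℝ) + 2)))⁻¹ ^ (m + 3) * N ^ (2 * (m + 3)) *
        ((σ / 4) ^ (m + 2) * N⁻¹ ^ (m + 2))
      = (σ / (2 * ((m : ℝ) + 2)))⁻¹ ^ (m + 3) * (σ / 4) ^ (m + 2) *
        (N ^ (2 * (m + 3)) * N⁻¹ ^ (m + 2)) := by ring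
    _ = _ := by rw [e3]

/-- **The mean moments, full range.** -/
theorem mean_full (m : ℕ) {q σ : ℝ} (hq : ((m : ℝ) + 3) / ((m : ℝ) + 2) < q) (hσ : 0 < σ)
    (hσ1 : σ ≤ 1) : ∃ C : ℝ, 0 < C ∧ ∀ (J : E (m + 1) →ₗᵢ[ℝ] Space (m + 2))
    (Ω ι : Type) [MeasurableSpace Ω] [Fintype ι] (P : Measure Ω) [IsProbabilityMeasure P]
    (A N : ℝ) (ω : ι → Vec (m + 2)) (f : ι → Fin (m + 2) → Space (m + 2))
    (a : ι → Space (m + 2)) (X : ι → Ω → E (m + 1)), Sh m P σ A N ω f X →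
    mean P q N J ω f a X ≤ ENNReal.ofReal (C * A * N ^ (m + 2 + 2) *
      (Fintype.card ι : ℝ) ^ (q - 1 / ((m : ℝ) + 2))) := by
  obtain ⟨C, hC, h⟩ := Run7.h750.RS.full m q hq
  have hq0 : 0 < q := lt_trans (by positivity) hq
  set τ : ℝ := σ / (2 * (m + 2)) with hτ
  have hτ0 : 0 < τ := by positivity
  refine ⟨C * τ⁻¹ ^ (m + 1) * (τ⁻¹ ^ (m + 3) * (σ / 4) ^ (m + 2)), by positivity, ?_⟩
  intro J Ω ι _ _ P _ A N ω f a X hS
  have hN0 : 0 < N := by linarith [hS.hN]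
  have hA0 : 0 < A := by linarith [hS.hA]
  have h1 := h _ Ω P ι _ _ _ _ _ (to_data m hσ hσ1 J P A N ω f a X hS)
  refine (mean_le m hq0 hσ hσ1 J P A N ω f a X hS).trans ?_
  refine (mul_le_mul' le_rfl h1).trans (le_of_eq ?_)
  rw [← ENNReal.ofReal_mul (by positivity)]
  congr 1
  have e1 := scale_eq m hσ hS.hN
  rw [← hτ] at e1 ⊢
  calc (τ / N ^ 2)⁻¹ ^ (m + 3) * (C * (A * τ⁻¹ ^ (m + 1)) * ((σ / (4 * N)) ^ (m + 2) *
        (Fintype.card ι : ℝ) ^ (q - 1 / ((m : ℝ) + 2))))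
      = C * (A * τ⁻¹ ^ (m + 1)) * ((τ / N ^ 2)⁻¹ ^ (m + 3) * (σ / (4 * N)) ^ (m + 2)) *
        (Fintype.card ι : ℝ) ^ (q - 1 / ((m : ℝ) + 2)) := by ring
    _ = _ := by rw [e1]; ring

/-- **The mean moments for exponents up to two.** -/
theorem mean_log (m : ℕ) {σ : ℝ} (hσ : 0 < σ)
    (hσ1 : σ ≤ 1) : ∃ C : ℝ, 0 < C ∧ ∀ (J : E (m + 1) →ₗᵢ[ℝ] Space (m + 2))
    (Ω ι : Type) [MeasurableSpace Ω] [Fintype ι] (P : Measure Ω) [IsProbabilityMeasure P]
    (A N : ℝ) (ω : ι → Vec (m + 2)) (f : ι → Fin (m + 2) → Space (m + 2))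
    (a : ι → Space (m + 2)) (X : ι → Ω → E (m + 1)), Sh m P σ A N ω f X →
    ∀ q : ℝ, 1 ≤ q → q ≤ 2 → mean P q N J ω f a X ≤ ENNReal.ofReal (C * A *
      (1 + Real.log (1 + Fintype.card ι)) ^ 2 * (N ^ (m + 2 + 2) * Fintype.card ι)) := by
  obtain ⟨C, hC, h⟩ := Run7.h750.RS.Lq m
  set τ : ℝ := σ / (2 * (m + 2)) with hτ
  have hτ0 : 0 < τ := by positivity
  refine ⟨C * τ⁻¹ ^ (m + 1) * (τ⁻¹ ^ (m + 3) * (σ / 4) ^ (m + 2)), by positivity, ?_⟩
  intro J Ω ι _ _ P _ A N ω f a X hS q hq1 hq2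
  have hN0 : 0 < N := by linarith [hS.hN]
  have hA0 : 0 < A := by linarith [hS.hA]
  have h1 := h _ Ω P ι _ _ _ _ _ (to_data m hσ hσ1 J P A N ω f a X hS) q hq1 hq2
  refine (mean_le m (by linarith) hσ hσ1 J P A N ω f a X hS).trans ?_
  refine (mul_le_mul' le_rfl h1).trans (le_of_eq ?_)
  rw [← ENNReal.ofReal_mul (by positivity)]
  congr 1
  have e1 := scale_eq m hσ hS.hN
  rw [← hτ] at e1 ⊢
  calc (τ / N ^ 2)⁻¹ ^ (m + 3) * (C * (A * τ⁻¹ ^ (m + 1)) *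
        (1 + Real.log (1 + (Fintype.card ι : ℝ))) ^ 2 * ((σ / (4 * N)) ^ (m + 2) * Fintype.card ι))
      = C * (A * τ⁻¹ ^ (m + 1)) * (1 + Real.log (1 + (Fintype.card ι : ℝ))) ^ 2 *
        ((τ / N ^ 2)⁻¹ ^ (m + 3) * (σ / (4 * N)) ^ (m + 2)) * Fintype.card ι := by ring
    _ = _ := by rw [e1]; ring

/-- The moments of the centred sum from below, all exponents. -/
theorem centred_one {d : ℕ} {ι : Type} [Fintype ι] {N q : ℝ} (hN : 1 ≤ N) (hq : 1 ≤ q)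
    (ω : ι → Vec d) (f : ι → Fin d → Space d)
    (hf : ∀ i, Orthonormal ℝ (Fin.cons (nor (ω i)) (f i) : Fin (d + 1) → Space d)) :
    ENNReal.ofReal ((Fintype.card ι : ℝ) * N ^ (d + 2)) ≤ ∫⁻ y, Fb N ω f (fun _ => 0) y ^ q := by
  rw [← Fb_int hN hf (fun _ => 0)]
  apply lintegral_mono
  intro y
  show Fb N ω f (fun _ => 0) y ≤ Fb N ω f (fun _ => 0) y ^ q
  by_cases h : ∃ i, y ∈ box N (nor (ω i)) (f i) 0
  · obtain ⟨i, hi⟩ := h
    have h1 : 1 ≤ Fb N ω f (fun _ => 0) y := by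
      unfold Fb
      have h2 : (box N (nor (ω i)) (f i) 0).indicator (fun _ => (1 : ℝ≥0∞)) y ≤ ∑ i,
          (box N (nor (ω i)) (f i) 0).indicator (fun _ => (1 : ℝ≥0∞)) y :=
        Finset.single_le_sum (f := fun i => (box N (nor (ω i)) (f i) 0).indicator
          (fun _ => (1 : ℝ≥0∞)) y) (fun _ _ => zero_le) (Finset.mem_univ i)
      rwa [indicator_of_mem hi] at h2
    conv_lhs => rw [← ENNReal.rpow_one (Fb N ω f (fun _ => 0) y)]
    exact ENNReal.rpow_le_rpow_of_exponent_le h1 hq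
  · push Not at h
    have h0 : Fb N ω f (fun _ => 0) y = 0 := by
      unfold Fb
      exact Finset.sum_eq_zero fun i _ => indicator_of_notMem (h i) _
    rw [h0]
    exact zero_le

/-- The moments of the centred sum from below, large exponents. -/
theorem centred_large {d : ℕ} {ι : Type} [Fintype ι] {N q : ℝ} (hN : 1 ≤ N) (hq : 0 < q)
    (ω : ι → Vec d) (f : ι → Fin d → Space d)
    (hf : ∀ i, Orthonormal ℝ (Fin.cons (nor (ω i)) (f i) : Fin (d + 1) → Space d)) :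
    ENNReal.ofReal ((Fintype.card ι : ℝ) ^ q * ((N / 2) ^ (d + 1) * wv d)) ≤
      ∫⁻ y, Fb N ω f (fun _ => 0) y ^ q := by
  have hN0 : 0 < N := by linarith
  have hwe : volume (ball (0 : Space d) 1) = ENNReal.ofReal (wv d) := by
    rw [wv, ENNReal.ofReal_toReal measure_ball_lt_top.ne]
  have hbv : volume (ball (0 : Space d) (N / 2)) = ENNReal.ofReal ((N / 2) ^ (d + 1) * wv d) := by
    rw [Measure.addHaar_ball_of_pos _ _ (by positivity), finrank_space, hwe,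
      ← ENNReal.ofReal_mul (by positivity)]
  have hball : ∀ y ∈ ball (0 : Space d) (N / 2),
      Fb N ω f (fun _ => (0 : Space d)) y = ENNReal.ofReal (Fintype.card ι : ℝ) := by
    intro y hy
    unfold Fb
    rw [Finset.sum_congr rfl (fun i _ => indicator_of_mem (ball_sub_box hN (hf i) hy) _)]
    simp
  calc ENNReal.ofReal ((Fintype.card ι : ℝ) ^ q * ((N / 2) ^ (d + 1) * wv d))
      = ENNReal.ofReal (Fintype.card ι : ℝ) ^ q * volume (ball (0 : Space d) (N / 2)) := by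
        rw [hbv, ENNReal.ofReal_mul (by positivity), ENNReal.ofReal_rpow_of_nonneg (by positivity) hq.le]
    _ = ∫⁻ y in ball (0 : Space d) (N / 2), Fb N ω f (fun _ => 0) y ^ q := by
        rw [setLIntegral_congr_fun measurableSet_ball (fun y hy => by rw [hball y hy]),
          setLIntegral_const]
    _ ≤ _ := setLIntegral_le_lintegral _ _

/-- Large exponents from one exponent. -/
theorem mean_mono {m : ℕ} {Ω ι : Type} [MeasurableSpace Ω] [Fintype ι] [Nonempty ι] (P : Measure Ω)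
    {p q : ℝ} (hqp : q ≤ p) (hq : 0 < q) (N : ℝ) (J : E (m + 1) →ₗᵢ[ℝ] Space (m + 2))
    (ω : ι → Vec (m + 2)) (f : ι → Fin (m + 2) → Space (m + 2)) (a : ι → Space (m + 2))
    (X : ι → Ω → E (m + 1)) :
    mean P p N J ω f a X ≤ ENNReal.ofReal ((Fintype.card ι : ℝ) ^ (p - q)) * mean P q N J ω f a X := by
  unfold mean
  rw [← lintegral_const_mul' _ _ ENNReal.ofReal_ne_top]
  apply lintegral_mono
  intro w
  show ∫⁻ y, Fb N ω f _ y ^ p ≤ ENNReal.ofReal ((Fintype.card ι : ℝ) ^ (p - q)) * ∫⁻ y, Fb N ω f _ y ^ q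
  rw [← lintegral_const_mul' _ _ ENNReal.ofReal_ne_top]
  apply lintegral_mono
  intro y
  show Fb N ω f _ y ^ p ≤ ENNReal.ofReal ((Fintype.card ι : ℝ) ^ (p - q)) * Fb N ω f _ y ^ q
  have h1 := Fb_le N ω f (fun i => a i + N ^ 2 • J (X i w)) y
  have e : p = (p - q) + q := by ring
  conv_lhs => rw [e, ENNReal.rpow_add_of_nonneg _ _ (by linarith) hq.le]
  gcongr
  rw [← ENNReal.ofReal_rpow_of_nonneg (Nat.cast_nonneg _) (by linarith), ENNReal.ofReal_natCast]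
  exact ENNReal.rpow_le_rpow h1 (by linarith)

end Run7.h534.Kak
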