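import Pool.Agent.Run7.h860.Om.Branch
import Pool.Agent.Run7.h860.Kk.Over
import Pool.Agent.TH221.Rough.Tubes

set_option autoImplicit false

/-!
# Tubes from finitely many definable branches of lines
-/

open MeasureTheory Set Filter Topology ENNReal NNReal Metric

namespace Run7.h534.Kak

open Run7.h860.Om Run7.h860.Kk
open Pool.Agent.TH221.Rough
open Pool.Agent.H810R3.Tub (Vec Space tube dir tube_closed)
open Pool.Agent.H805R3.Kk (LipPieces OverlapLE)

universe u v

/-- The constant of the tube inequality for rough families (`1` outside of the range). -/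
noncomputable def cT (d : ℕ) (q : ℝ) : ℝ :=
  open Classical in
  if h : 1 ≤ d ∧ ((d : ℝ) + 1) / d < q then (HasGood.tubes (d := d) h.1 h.2).choose else 1

theorem cT_pos (d : ℕ) (q : ℝ) : 0 < cT d q := by
  unfold cT
  split_ifs with h
  · exact (HasGood.tubes (d := d) h.1 h.2).choose_spec.1
  · exact one_pos

variable {d : ℕ}

/-- The weighted sum of the indicators of the tubes. -/
noncomputable def tsum {ι : Type} [Fintype ι] (δ : ℝ) (v β : ι → Vec d) (h a : ι → ℝ)
    (y : Space d) : ℝ :=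
  ∑ i, (tube δ (dir (v i)) (WithLp.toLp 2 (β i + h i • v i, h i))).indicator (fun _ => a i) y

theorem tubes_cT (hd : 1 ≤ d) {q : ℝ} (hq : ((d : ℝ) + 1) / d < q) (M : ℕ) (B : Set (Vec d))
    (g : Vec d → Vec d) (hg : HasGood M univ B g) (K S : ℝ≥0) (θ δ : ℝ) (hθ : 0 < θ) (hδ : 0 < δ)
    (hδ1 : δ < 1) (ι : Type) [Fintype ι] (v β : ι → Vec d) (h a : ι → ℝ) (hv : ∀ i, ‖v i‖ ≤ 1)
    (hh : ∀ i, |h i| ≤ S) (hsep : ∀ i j, i ≠ j → δ ≤ ‖dir (v i) - dir (v j)‖)
    (hE : ∀ i, ENNReal.ofReal θ * volume (ball (v i) (δ / 2)) ≤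
      volume {w | w ∈ B ∧ ‖w - v i‖ < δ / 2 ∧ ‖β i - g w‖ ≤ K * δ}) :
    eLpNorm (tsum δ v β h a) (ENNReal.ofReal q) volume
      ≤ ENNReal.ofReal (cT d q * θ ^ (-(1 / (q * d))) * (1 + M) ^ (1 - 1 / q) *
          (1 + K + S) ^ ((d + 1) / q) * δ ^ (d / q) *
          (∑ i, |a i| ^ (q * d / (q * d - 1))) ^ (1 - 1 / (q * d))) := by
  have h1 := (HasGood.tubes (d := d) hd hq).choose_spec.2 M univ B g MeasurableSet.univ hg K S θ δ
    hθ hδ hδ1 ι v β h a hv hh hsep hE
  have h2 : cT d q = (HasGood.tubes (d := d) hd hq).choose := by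
    unfold cT
    rw [dif_pos ⟨hd, hq⟩]
  rw [h2]
  have h3 : (volume.restrict {y : Space d | (WithLp.ofLp y).2 ∈ (univ : Set ℝ)}) = volume := by
    simp
  rw [h3] at h1
  exact h1

theorem tsum_split {ι : Type} [Fintype ι] (δ : ℝ) (v β : ι → Vec d) (h a : ι → ℝ) (K : ℕ)
    (κ : ι → ℕ) (hκ : ∀ i, κ i < K) :
    tsum δ v β h a = ∑ k ∈ Finset.range K, tsum (ι := {i // κ i = k}) δ (fun i => v i)
      (fun i => β i) (fun i => h i) (fun i => a i) := by
  classical
  funext y
  rw [Finset.sum_apply]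
  unfold tsum
  have h1 : ∀ k, (∑ i : {i // κ i = k}, (tube δ (dir (v i)) (WithLp.toLp 2 (β i + h i • v i,
      h i))).indicator (fun _ => a i) y) = ∑ i ∈ Finset.univ.filter (fun i => κ i = k),
      (tube δ (dir (v i)) (WithLp.toLp 2 (β i + h i • v i, h i))).indicator (fun _ => a i) y := by
    intro k
    rw [Finset.sum_subtype (Finset.univ.filter (fun i => κ i = k)) (p := fun i => κ i = k)
      (by simp)]
  simp_rw [h1]
  rw [← Finset.sum_fiberwise_of_maps_to (s := Finset.univ) (t := Finset.range K) (g := κ)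
    (fun i _ => Finset.mem_range.2 (hκ i))]

theorem tsum_meas {ι : Type} [Fintype ι] (δ : ℝ) (v β : ι → Vec d) (h a : ι → ℝ) :
    Measurable (tsum δ v β h a) := by
  unfold tsum
  refine Finset.measurable_fun_sum _ fun i _ => ?_
  exact measurable_const.indicator (tube_closed _ _ _).measurableSet

variable {L : FirstOrder.Language.{u, v}} [L.Structure ℝ] [OMin L]
variable {Γ : Type} [Ctx Γ]

/-- a definable family of choices has good pieces -/
theorem hasGood_def {g : Γ × (Fin d → ℝ) → Fin d → ℝ} (hg : DFun L g) : ∃ N : ℕ, ∀ γ : Γ,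
    HasGood N univ {v | DifferentiableAt ℝ (lift (fun v => g (γ, v))) v}
      (lift (fun v => g (γ, v))) := by
  obtain ⟨N, -, hN⟩ := exists_overlap (L := L) (g := fun (γ : Γ) (v : Fin d → ℝ) => g (γ, v))
    (by fun_prop)
  refine ⟨N, fun γ => ?_⟩
  have hgs : DFun L (fun v : Fin d → ℝ => g (γ, v)) := by fun_prop
  refine HasGood.of_lipPieces (measurableSet_of_differentiableAt ℝ _)
    (lift_lipPieces (L := L) hgs _) ?_
  refine Filter.Eventually.of_forall fun t _ => ?_
  filter_upwards [hN γ t] with y hy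
  exact hy

/-- **The tube inequality for finitely many definable branches.** -/
theorem tubes_branches (hd : 1 ≤ d) (K₀ : ℕ) {g : ℕ → Γ × (Fin d → ℝ) → Fin d → ℝ}
    (hg : ∀ k, DFun L (g k)) : ∃ N : ℕ, ∀ (γ : Γ) (q : ℝ), ((d : ℝ) + 1) / d < q →
    ∀ (K S : ℝ≥0) (θ δ : ℝ), 0 < θ → 0 < δ → δ < 1 → ∀ (ι : Type) [Fintype ι]
    (v β : ι → Vec d) (h a : ι → ℝ), (∀ i, ‖v i‖ ≤ 1) → (∀ i, |h i| ≤ S) →
    (∀ i j, i ≠ j → δ ≤ ‖dir (v i) - dir (v j)‖) →
    (∀ i, ENNReal.ofReal θ * volume (ball (v i) (δ / 2)) ≤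
      volume {w | ‖w - v i‖ < δ / 2 ∧ ∃ k < K₀, ‖β i - lift (fun v => g k (γ, v)) w‖ ≤ K * δ}) →
    eLpNorm (tsum δ v β h a) (ENNReal.ofReal q) volume
      ≤ ENNReal.ofReal (cT d q * N * θ ^ (-(1 / (q * d))) *
          (1 + K + S) ^ ((d + 1) / q) * δ ^ (d / q) *
          (∑ i, |a i| ^ (q * d / (q * d - 1))) ^ (1 - 1 / (q * d))) := by
  classical
  choose M hM using fun k => hasGood_def (L := L) (Γ := Γ) (hg k)
  refine ⟨K₀ * ∑ k ∈ Finset.range K₀, (1 + M k), ?_⟩
  intro γ q hq K S θ δ hθ hδ hδ1 ι _ v β h a hv hh hsep hE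
  have hd0 : (1 : ℝ) ≤ d := by exact_mod_cast hd
  have hq1 : 1 < q := by
    refine lt_trans ?_ hq
    rw [lt_div_iff₀ (by linarith)]; linarith
  have hq0 : 0 < q := by linarith
  have hqd : 1 ≤ q * d := by nlinarith
  have hcT := cT_pos d q
  have hK0 : (0 : ℝ) ≤ K := K.2
  have hS0 : (0 : ℝ) ≤ S := S.2
  have hball : ∀ i, 0 < volume (ball (v i) (δ / 2)) := fun i => measure_ball_pos _ _ (by linarith)
  -- one branch for each tube
  have hex : ∀ i, ∃ k < K₀, ENNReal.ofReal (θ / K₀) * volume (ball (v i) (δ / 2)) ≤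
      volume {w | w ∈ {v | DifferentiableAt ℝ (lift (fun v => g k (γ, v))) v} ∧
        ‖w - v i‖ < δ / 2 ∧ ‖β i - lift (fun v => g k (γ, v)) w‖ ≤ K * δ} := by
    intro i
    by_contra hno
    push Not at hno
    set A : ℕ → Set (Vec d) := fun k => {w | w ∈ {v | DifferentiableAt ℝ (lift (fun v =>
      g k (γ, v))) v} ∧ ‖w - v i‖ < δ / 2 ∧ ‖β i - lift (fun v => g k (γ, v)) w‖ ≤ K * δ} with hA
    have h0 : volume (⋃ k ∈ Finset.range K₀, {v | ¬ DifferentiableAt ℝ (lift (fun v =>
        g k (γ, v))) v}) = 0 := by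
      refine (measure_biUnion_null_iff (Finset.range K₀).countable_toSet).2 fun k _ => ?_
      have hgs : DFun L (fun v : Fin d → ℝ => g k (γ, v)) := by
        have := hg k
        fun_prop
      exact ae_iff.1 (ae_diff_lift (L := L) hgs)
    have hle : volume {w | ‖w - v i‖ < δ / 2 ∧ ∃ k < K₀, ‖β i - lift (fun v => g k (γ, v)) w‖
        ≤ K * δ} ≤ ∑ k ∈ Finset.range K₀, volume (A k) := by
      calc volume {w | ‖w - v i‖ < δ / 2 ∧ ∃ k < K₀, ‖β i - lift (fun v => g k (γ, v)) w‖
            ≤ K * δ} ≤ volume ((⋃ k ∈ Finset.range K₀, {v | ¬ DifferentiableAt ℝ (lift (fun v =>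
              g k (γ, v))) v}) ∪ ⋃ k ∈ Finset.range K₀, A k) := by
            refine measure_mono ?_
            rintro w ⟨h1, k, hk, h2⟩
            by_cases h3 : DifferentiableAt ℝ (lift (fun v => g k (γ, v))) w
            · exact Or.inr (mem_iUnion₂.2 ⟨k, Finset.mem_range.2 hk, h3, h1, h2⟩)
            · exact Or.inl (mem_iUnion₂.2 ⟨k, Finset.mem_range.2 hk, h3⟩)
        _ ≤ 0 + ∑ k ∈ Finset.range K₀, volume (A k) := by
            refine (measure_union_le _ _).trans (add_le_add h0.le ?_)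
            exact measure_biUnion_finset_le _ _
        _ = _ := zero_add _
    have h2 := (hE i).trans hle
    rcases Nat.eq_zero_or_pos K₀ with hz | hz
    · subst hz
      simp only [Finset.range_zero, Finset.sum_empty, nonpos_iff_eq_zero, mul_eq_zero,
        ENNReal.ofReal_eq_zero] at h2
      rcases h2 with h2 | h2
      · linarith
      · exact (hball i).ne' h2
    · have hlt : ∑ k ∈ Finset.range K₀, volume (A k) <
          ∑ k ∈ Finset.range K₀, ENNReal.ofReal (θ / K₀) * volume (ball (v i) (δ / 2)) := by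
        refine ENNReal.sum_lt_sum_of_nonempty (Finset.nonempty_range_iff.2 hz.ne') ?_
        intro k hk
        exact hno k (Finset.mem_range.1 hk)
      rw [Finset.sum_const, Finset.card_range, nsmul_eq_mul, ← mul_assoc] at hlt
      have h3 : (K₀ : ℝ≥0∞) * ENNReal.ofReal (θ / K₀) = ENNReal.ofReal θ := by
        rw [← ENNReal.ofReal_natCast, ← ENNReal.ofReal_mul (by positivity)]
        congr 1
        have : (K₀ : ℝ) ≠ 0 := by exact_mod_cast hz.ne'
        field_simp
      rw [h3] at hlt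
      exact absurd (h2.trans_lt hlt) (lt_irrefl _)
  choose κ hκ hκE using hex
  -- the trivial case
  rcases isEmpty_or_nonempty ι with hemp | hne
  · have : tsum δ v β h a = 0 := by
      funext y
      simp [tsum]
    rw [this, eLpNorm_zero]
    exact zero_le
  have hKpos : 0 < K₀ := (Nat.zero_le _).trans_lt (hκ hne.some)
  have hKr : (1 : ℝ) ≤ K₀ := by exact_mod_cast hKpos
  rw [tsum_split δ v β h a K₀ κ hκ]
  refine (eLpNorm_sum_le (fun k _ => (tsum_meas _ _ _ _ _).aestronglyMeasurable)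
    (by rw [ENNReal.one_le_ofReal]; exact hq1.le)).trans ?_
  set Sa : ℝ := (∑ i, |a i| ^ (q * d / (q * d - 1))) ^ (1 - 1 / (q * d)) with hSa
  have hSa0 : 0 ≤ Sa := by positivity
  set X : ℝ := cT d q * θ ^ (-(1 / (q * d))) * (1 + K + S) ^ ((d + 1) / q) * δ ^ (d / q) * Sa
    with hX
  have hX0 : 0 ≤ X := by positivity
  have hone : ∀ k ∈ Finset.range K₀, eLpNorm (tsum (ι := {i // κ i = k}) δ (fun i => v i)
      (fun i => β i) (fun i => h i) (fun i => a i)) (ENNReal.ofReal q) volume ≤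
      ENNReal.ofReal (X * (K₀ * (1 + M k))) := by
    intro k _
    have h1 := tubes_cT hd hq (M k) _ _ (hM k γ) K S (θ / K₀) δ (by positivity) hδ hδ1
      {i // κ i = k} (fun i => v i) (fun i => β i) (fun i => h i) (fun i => a i)
      (fun i => hv i) (fun i => hh i) (fun i j hij => hsep i j (fun he => hij (Subtype.ext he)))
      (fun i => by
        have := hκE i
        rw [i.2] at this
        exact this)
    refine h1.trans (ENNReal.ofReal_le_ofReal ?_)
    have e1 : (θ / K₀ : ℝ) ^ (-(1 / (q * d))) ≤ θ ^ (-(1 / (q * d))) * K₀ := by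
      rw [Real.div_rpow hθ.le (by positivity), div_eq_mul_inv, ← Real.rpow_neg (by positivity),
        neg_neg]
      have : (K₀ : ℝ) ^ (1 / (q * d)) ≤ (K₀ : ℝ) ^ (1 : ℝ) :=
        Real.rpow_le_rpow_of_exponent_le hKr (by
          rw [div_le_one (by positivity)]
          exact hqd)
      rw [Real.rpow_one] at this
      gcongr
    have e2 : (1 + M k : ℝ) ^ (1 - 1 / q) ≤ 1 + M k := by
      have : (1 + M k : ℝ) ^ (1 - 1 / q) ≤ (1 + M k : ℝ) ^ (1 : ℝ) :=
        Real.rpow_le_rpow_of_exponent_le (by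
          have : (0 : ℝ) ≤ M k := Nat.cast_nonneg _
          linarith) (by
          have : 0 < 1 / q := by positivity
          linarith)
      rwa [Real.rpow_one] at this
    have e3 : (∑ i : {i // κ i = k}, |a i| ^ (q * d / (q * d - 1))) ^ (1 - 1 / (q * d)) ≤ Sa := by
      rw [hSa]
      refine Real.rpow_le_rpow (Finset.sum_nonneg fun i _ => by positivity) ?_ (by
        rw [sub_nonneg, div_le_one (by positivity)]
        exact hqd)
      rw [← Finset.sum_subtype (Finset.univ.filter (fun i => κ i = k)) (p := fun i => κ i = k)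
        (by simp) (fun i => |a i| ^ (q * d / (q * d - 1)))]
      exact Finset.sum_le_sum_of_subset_of_nonneg (Finset.filter_subset _ _)
        (fun i _ _ => by positivity)
    calc cT d q * (θ / K₀) ^ (-(1 / (q * d))) * (1 + M k) ^ (1 - 1 / q) *
          (1 + K + S) ^ ((d + 1) / q) * δ ^ (d / q) *
          (∑ i : {i // κ i = k}, |a i| ^ (q * d / (q * d - 1))) ^ (1 - 1 / (q * d))
        ≤ cT d q * (θ ^ (-(1 / (q * d))) * K₀) * (1 + M k) *
          (1 + K + S) ^ ((d + 1) / q) * δ ^ (d / q) * Sa := by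
          have hnn : 0 ≤ ∑ i : {i // κ i = k}, |a i| ^ (q * d / (q * d - 1)) :=
            Finset.sum_nonneg fun i _ => by positivity
          gcongr
      _ = X * (K₀ * (1 + M k)) := by rw [hX]; ring
  refine (Finset.sum_le_sum hone).trans ?_
  rw [← ENNReal.ofReal_sum_of_nonneg (fun k _ => by positivity)]
  refine ENNReal.ofReal_le_ofReal (le_of_eq ?_)
  rw [← Finset.mul_sum, ← Finset.mul_sum, hX]
  push_cast
  ring

end Run7.h534.Kak
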